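import Mathlib

/-!
# EV-Normal: the normality theorem

`L` is a linear functional on the polynomials with `L (h(x+1) - h(x)) = h'(0)` for `deg h ≤ f + 1`.
-/

namespace Pool.Agent.Lib.MP_a3a416_nt.EV

open Polynomial Finset

section
variable {F : Type*} [Field F]

/-- forward difference of a polynomial -/
noncomputable def dp (g : F[X]) : F[X] := g.comp (X + 1) - g

/-- backward difference of a polynomial -/
noncomputable def nb (g : F[X]) : F[X] := g - g.comp (X - 1)

/-- forward difference of a sequence -/
def ds (v : ℕ → F) : ℕ → F := fun j => v (j + 1) - v j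

/-- `A * Δ^(D+1) G = Δ (kap D A G)` when `deg A ≤ D` -/
noncomputable def kap : ℕ → F[X] → F[X] → F[X]
  | 0, A, G => A.comp (X - 1) * G
  | D + 1, A, G => A.comp (X - 1) * dp^[D + 1] G - kap D (nb A) G

/-- the values at zero of `kap` -/
noncomputable def psi : ℕ → F[X] → (ℕ → F) → F
  | 0, A, v => A.eval (-1) * v 0
  | D + 1, A, v => A.eval (-1) * ds^[D + 1] v 0 - psi D (nb A) v

theorem natDegree_comp_X_add_C (g : F[X]) (c : F) : (g.comp (X + C c)).natDegree = g.natDegree := by
  rw [natDegree_comp, natDegree_X_add_C, mul_one]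

theorem natDegree_shift (g : F[X]) (c : F) : (g.comp (X + C c) - g).natDegree ≤ g.natDegree - 1 := by
  rcases Nat.eq_zero_or_pos g.natDegree with h | h
  · rw [natDegree_eq_zero] at h
    obtain ⟨a, rfl⟩ := h
    simp
  · have h0 : g ≠ 0 := by
      rintro rfl
      simp at h
    have hdeg : (g.comp (X + C c)).natDegree = g.natDegree := natDegree_comp_X_add_C g c
    have hlc : (g.comp (X + C c)).leadingCoeff = g.leadingCoeff := by
      rw [leadingCoeff_comp (by rw [natDegree_X_add_C]; exact one_ne_zero), leadingCoeff_X_add_C,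
        one_pow, mul_one]
    have hne : g.comp (X + C c) ≠ 0 := by
      intro h1
      rw [h1] at hdeg
      simp at hdeg
      omega
    have h2 := degree_sub_lt_left (p := g.comp (X + C c)) (q := g) (by
      rw [degree_eq_natDegree hne, degree_eq_natDegree h0, hdeg]) hne hlc
    rw [degree_eq_natDegree hne, hdeg] at h2
    by_cases h3 : g.comp (X + C c) - g = 0
    · rw [h3]
      simp
    · rw [degree_eq_natDegree h3] at h2
      have h4 : (g.comp (X + C c) - g).natDegree < g.natDegree := by exact_mod_cast h2
      omega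

theorem natDegree_dp (g : F[X]) : (dp g).natDegree ≤ g.natDegree - 1 := by
  have := natDegree_shift g 1
  rwa [C_1] at this

theorem natDegree_nb (g : F[X]) : (nb g).natDegree ≤ g.natDegree - 1 := by
  have h := natDegree_shift g (-1)
  rw [← natDegree_neg] at h
  have h2 : -(g.comp (X + C (-1)) - g) = nb g := by
    unfold nb
    rw [neg_sub, C_neg, C_1, ← sub_eq_add_neg]
  rwa [h2] at h

theorem natDegree_dp_iter (m : ℕ) (g : F[X]) : (dp^[m] g).natDegree ≤ g.natDegree - m := by
  induction m with
  | zero => simp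
  | succ m ih =>
    rw [Function.iterate_succ_apply']
    exact (natDegree_dp _).trans (by omega)

theorem natDegree_kap (D : ℕ) : ∀ (A G : F[X]) (B : ℕ), A.natDegree ≤ D → D ≤ B →
    G.natDegree ≤ B → (kap D A G).natDegree ≤ B := by
  induction D with
  | zero =>
    intro A G B hA _ hG
    unfold kap
    refine natDegree_mul_le.trans ?_
    have h := natDegree_comp_X_add_C A (-1)
    rw [C_neg, C_1, ← sub_eq_add_neg] at h
    omega
  | succ D ih =>
    intro A G B hA hD hG
    unfold kap
    refine (natDegree_sub_le _ _).trans (max_le ?_ ?_)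
    · refine natDegree_mul_le.trans ?_
      have h := natDegree_comp_X_add_C A (-1)
      rw [C_neg, C_1, ← sub_eq_add_neg] at h
      have h2 := natDegree_dp_iter (D + 1) G
      omega
    · refine ih _ _ _ ?_ (by omega) hG
      have := natDegree_nb A
      omega

theorem leibniz (A g : F[X]) : A * dp g = dp (A.comp (X - 1) * g) - nb A * g := by
  unfold dp nb
  rw [mul_comp, comp_assoc]
  have : (X - 1 : F[X]).comp (X + 1) = X := by simp
  rw [this, comp_X]
  ring

theorem dp_sub (a b : F[X]) : dp (a - b) = dp a - dp b := by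
  unfold dp
  rw [sub_comp]
  ring

theorem kap_spec (D : ℕ) : ∀ A G : F[X], A.natDegree ≤ D → A * dp^[D + 1] G = dp (kap D A G) := by
  induction D with
  | zero =>
    intro A G hA
    have h0 : A.natDegree = 0 := by omega
    rw [natDegree_eq_zero] at h0
    obtain ⟨a, rfl⟩ := h0
    unfold kap
    rw [Function.iterate_one, leibniz]
    simp [nb]
  | succ D ih =>
    intro A G hA
    unfold kap
    rw [Function.iterate_succ_apply', leibniz, dp_sub, ← ih (nb A) G]
    have := natDegree_nb A
    omega

theorem ds_iter_zero (D : ℕ) (v : ℕ → F) (hv : ∀ j ≤ D, v j = 0) (m : ℕ) :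
    ∀ j, j + m ≤ D → ds^[m] v j = 0 := by
  induction m with
  | zero => intro j hj; exact hv j hj
  | succ m ih =>
    intro j hj
    rw [Function.iterate_succ_apply']
    unfold ds
    have h1 := ih (j + 1) (by omega)
    have h2 := ih j (by omega)
    unfold ds at h1 h2
    rw [h1, h2, sub_zero]

theorem ds_iter_one (D : ℕ) (v : ℕ → F) (hv : ∀ j ≤ D, v j = 0) (hv1 : v (D + 1) = 1) (m : ℕ) :
    ∀ j, j + m = D + 1 → ds^[m] v j = 1 := by
  induction m with
  | zero =>
    intro j hj
    rw [add_zero] at hj
    subst hj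
    exact hv1
  | succ m ih =>
    intro j hj
    rw [Function.iterate_succ_apply']
    have h1 := ih (j + 1) (by omega)
    have h2 := ds_iter_zero D v hv m j (by omega)
    change ds^[m] v (j + 1) - ds^[m] v j = 1
    rw [h1, h2, sub_zero]

theorem ds_iter_congr (v w : ℕ → F) (D : ℕ) (h : ∀ j ≤ D, v j = w j) (m : ℕ) :
    ∀ j, j + m ≤ D → ds^[m] v j = ds^[m] w j := by
  induction m with
  | zero => intro j hj; exact h j hj
  | succ m ih =>
    intro j hj
    rw [Function.iterate_succ_apply', Function.iterate_succ_apply']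
    change ds^[m] v (j + 1) - ds^[m] v j = ds^[m] w (j + 1) - ds^[m] w j
    rw [ih (j + 1) (by omega), ih j (by omega)]

theorem psi_congr (D : ℕ) : ∀ (A : F[X]) (v w : ℕ → F), (∀ j ≤ D, v j = w j) →
    psi D A v = psi D A w := by
  induction D with
  | zero =>
    intro A v w h
    unfold psi
    rw [h 0 le_rfl]
  | succ D ih =>
    intro A v w h
    unfold psi
    rw [ih (nb A) v w fun j hj => h j (by omega), ds_iter_congr v w (D + 1) h (D + 1) 0 (by omega)]

theorem psi_zero (D : ℕ) (A : F[X]) : psi D A (fun _ => 0) = 0 := by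
  have h0 : ∀ m : ℕ, ds^[m] (fun _ : ℕ => (0 : F)) 0 = 0 := fun m =>
    ds_iter_zero m _ (fun _ _ => rfl) m 0 (by omega)
  induction D generalizing A with
  | zero => simp [psi]
  | succ D ih =>
    unfold psi
    rw [ih, h0]
    simp

theorem psi_inj (D : ℕ) : ∀ A : F[X], (∀ v : ℕ → F, psi D A v = 0) →
    ∀ l ≤ D, A.eval (-1 - (l : F)) = 0 := by
  induction D with
  | zero =>
    intro A h l hl
    have h1 := h fun _ => 1
    unfold psi at h1
    have : l = 0 := by omega
    subst this
    simpa using h1
  | succ D ih =>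
    intro A h
    have h1 : A.eval (-1) = 0 := by
      obtain ⟨w, hw0, hw1⟩ : ∃ w : ℕ → F, (∀ j ≤ D, w j = 0) ∧ w (D + 1) = 1 :=
        ⟨fun j => if j = D + 1 then 1 else 0, fun j hj => if_neg (by omega), if_pos rfl⟩
      have h2 := h w
      unfold psi at h2
      rw [ds_iter_one D w hw0 hw1 (D + 1) 0 (by omega),
        psi_congr D (nb A) w (fun _ => 0) hw0, psi_zero] at h2
      simpa using h2
    have h2 : ∀ v : ℕ → F, psi D (nb A) v = 0 := by
      intro v
      have h3 := h v
      unfold psi at h3
      rw [h1] at h3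
      simpa using h3
    have h3 := ih (nb A) h2
    intro l
    induction l with
    | zero => intro _; simpa using h1
    | succ l ihl =>
      intro hl
      have h4 := h3 l (by omega)
      unfold nb at h4
      rw [eval_sub, ihl (by omega), eval_comp, zero_sub, neg_eq_zero] at h4
      rw [← h4]
      congr 1
      simp
      ring

/-- the shifted polynomials -/
theorem dp_comp (g : F[X]) (j : ℕ) :
    (dp g).comp (X + C (j : F)) = g.comp (X + C ((j + 1 : ℕ) : F)) - g.comp (X + C (j : F)) := by
  unfold dp
  rw [sub_comp, comp_assoc]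
  congr 2
  simp
  ring

theorem dp_iter_dvd (N D : ℕ) (G : F[X]) (hG : ∀ j ≤ D, X ^ N ∣ G.comp (X + C (j : F))) (m : ℕ) :
    ∀ j, j + m ≤ D → X ^ N ∣ (dp^[m] G).comp (X + C (j : F)) := by
  induction m with
  | zero => intro j hj; exact hG j hj
  | succ m ih =>
    intro j hj
    rw [Function.iterate_succ_apply', dp_comp]
    exact dvd_sub (ih (j + 1) (by omega)) (ih j (by omega))

theorem dp_iter_coeff (N : ℕ) (G : F[X]) (m : ℕ) : ∀ j : ℕ,
    ((dp^[m] G).comp (X + C (j : F))).coeff N =
      ds^[m] (fun i : ℕ => (G.comp (X + C (i : F))).coeff N) j := by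
  induction m with
  | zero => intro j; rfl
  | succ m ih =>
    intro j
    rw [Function.iterate_succ_apply', Function.iterate_succ_apply', dp_comp, coeff_sub, ih, ih]
    rfl

theorem mul_coeff_of_dvd (N : ℕ) (a b : F[X]) (hb : X ^ N ∣ b) :
    (a * b).coeff N = a.eval 0 * b.coeff N := by
  obtain ⟨c, rfl⟩ := hb
  have h1 : a * (X ^ N * c) = X ^ N * (a * c) := by ring
  have h2 := coeff_X_pow_mul (a * c) N 0
  have h3 := coeff_X_pow_mul c N 0
  rw [zero_add] at h2 h3
  rw [h1, h2, h3, mul_coeff_zero, coeff_zero_eq_eval_zero a]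

theorem comp_zero_shift (g : F[X]) : g.comp (X + C ((0 : ℕ) : F)) = g := by simp

theorem kap_dvd (N D : ℕ) : ∀ (A G : F[X]), (∀ j ≤ D, X ^ N ∣ G.comp (X + C (j : F))) →
    X ^ N ∣ kap D A G := by
  induction D with
  | zero =>
    intro A G hG
    unfold kap
    have := hG 0 le_rfl
    rw [comp_zero_shift] at this
    exact this.mul_left _
  | succ D ih =>
    intro A G hG
    unfold kap
    have h1 := dp_iter_dvd N (D + 1) G hG (D + 1) 0 (by omega)
    rw [comp_zero_shift] at h1
    exact dvd_sub (h1.mul_left _) (ih _ _ fun j hj => hG j (by omega))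

theorem kap_coeff (N D : ℕ) : ∀ (A G : F[X]), (∀ j ≤ D, X ^ N ∣ G.comp (X + C (j : F))) →
    (kap D A G).coeff N = psi D A fun j : ℕ => (G.comp (X + C (j : F))).coeff N := by
  have hev : ∀ A : F[X], (A.comp (X - 1)).eval 0 = A.eval (-1) := by
    intro A
    rw [eval_comp]
    simp
  induction D with
  | zero =>
    intro A G hG
    unfold kap psi
    have h1 := hG 0 le_rfl
    rw [comp_zero_shift] at h1
    rw [mul_coeff_of_dvd N _ _ h1, hev]
    change A.eval (-1) * G.coeff N = A.eval (-1) * (G.comp (X + C ((0 : ℕ) : F))).coeff N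
    rw [comp_zero_shift]
  | succ D ih =>
    intro A G hG
    unfold kap psi
    have h1 := dp_iter_dvd N (D + 1) G hG (D + 1) 0 (by omega)
    rw [comp_zero_shift] at h1
    have h2 := dp_iter_coeff N G (D + 1) 0
    rw [comp_zero_shift] at h2
    rw [coeff_sub, mul_coeff_of_dvd N _ _ h1, hev, ih _ _ fun j hj => hG j (by omega), h2]

theorem derivative_dp (h : F[X]) : derivative (dp h) = dp (derivative h) := by
  unfold dp
  rw [derivative_sub, derivative_comp]
  simp

theorem derivative_iter_dp (r : ℕ) (h : F[X]) : derivative^[r] (dp h) = dp (derivative^[r] h) := by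
  induction r with
  | zero => rfl
  | succ r ih => rw [Function.iterate_succ_apply', Function.iterate_succ_apply', ih, derivative_dp]

theorem natDegree_derivative_iter (r : ℕ) (h : F[X]) : (derivative^[r] h).natDegree ≤ h.natDegree := by
  induction r with
  | zero => rfl
  | succ r ih =>
    rw [Function.iterate_succ_apply']
    exact (natDegree_derivative_le _).trans (by omega)

end

theorem node_ne {p : ℕ} [Fact p.Prime] (D : ℕ) (hD : D < p) (i j : ℕ) (hi : i ≤ D) (hj : j ≤ D)
    (hij : i ≠ j) : ((j : ℕ) : ZMod p) - ((i : ℕ) : ZMod p) ≠ 0 := by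
  intro h
  have h1 : ((j : ℕ) : ZMod p) = ((i : ℕ) : ZMod p) := sub_eq_zero.1 h
  rw [ZMod.natCast_eq_natCast_iff'] at h1
  rw [Nat.mod_eq_of_lt (by omega), Nat.mod_eq_of_lt (by omega)] at h1
  exact hij h1.symm

/-- interpolation: prescribed coefficients of order `N` at the nodes `0..D` -/
theorem nodes {p : ℕ} [Fact p.Prime] (N D : ℕ) (hD : D < p) (v : ℕ → ZMod p) :
    ∃ G : (ZMod p)[X], G.natDegree ≤ N * (D + 1) + D ∧
      (∀ j ≤ D, X ^ N ∣ G.comp (X + C (j : ZMod p))) ∧
      ∀ j ≤ D, (G.comp (X + C (j : ZMod p))).coeff N = v j := by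
  classical
  set P : (ZMod p)[X] := ∏ i ∈ range (D + 1), (X - C (i : ZMod p)) with hP
  have hPdeg : P.natDegree = D + 1 := by
    rw [hP, natDegree_prod_of_monic _ _ fun i _ => monic_X_sub_C _]
    simp only [natDegree_X_sub_C, sum_const, card_range, smul_eq_mul, mul_one]
  let R : ℕ → (ZMod p)[X] := fun j =>
    ∏ i ∈ (range (D + 1)).erase j, (X + C ((j : ZMod p) - (i : ZMod p)))
  have hPR : ∀ j ≤ D, P.comp (X + C (j : ZMod p)) = X * R j := by
    intro j hj
    rw [hP, Polynomial.prod_comp, ← Finset.mul_prod_erase _ _ (mem_range.2 (Nat.lt_succ_of_le hj))]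
    congr 1
    · simp
    · refine prod_congr rfl fun i _ => ?_
      simp only [sub_comp, X_comp, C_comp, C_sub]
      ring
  have hR0 : ∀ j ≤ D, (R j).eval 0 ≠ 0 := by
    intro j hj
    simp only [R]
    rw [eval_prod, prod_ne_zero_iff]
    intro i hi
    rw [mem_erase, mem_range] at hi
    simpa using node_ne D hD i j (by omega) hj hi.1
  let W : (ZMod p)[X] := Lagrange.interpolate (range (D + 1)) (fun i => (i : ZMod p))
    fun j => v j * (((R j).eval 0) ^ N)⁻¹
  have hinj : Set.InjOn (fun i : ℕ => (i : ZMod p)) (range (D + 1) : Set ℕ) := by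
    intro i hi j hj hij
    by_contra hne
    rw [mem_coe, mem_range] at hi hj
    exact node_ne D hD i j (by omega) (by omega) hne (sub_eq_zero.2 hij.symm)
  have hWev : ∀ j ≤ D, W.eval (j : ZMod p) = v j * (((R j).eval 0) ^ N)⁻¹ := by
    intro j hj
    exact Lagrange.eval_interpolate_at_node _ hinj (mem_range.2 (Nat.lt_succ_of_le hj))
  have hWdeg : W.natDegree ≤ D := by
    have h1 : W.degree < ((range (D + 1)).card : ℕ) := Lagrange.degree_interpolate_lt _ hinj
    rw [card_range] at h1
    by_cases h2 : W = 0
    · rw [h2]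
      simp
    · rw [← natDegree_lt_iff_degree_lt h2] at h1
      omega
  have hG : ∀ j ≤ D, (P ^ N * W).comp (X + C (j : ZMod p)) =
      X ^ N * ((R j) ^ N * W.comp (X + C (j : ZMod p))) := by
    intro j hj
    rw [mul_comp, pow_comp, hPR j hj]
    ring
  refine ⟨P ^ N * W, ?_, ?_, ?_⟩
  · refine natDegree_mul_le.trans ?_
    have h1 := natDegree_pow_le (p := P) (n := N)
    rw [hPdeg] at h1
    omega
  · intro j hj
    rw [hG j hj]
    exact dvd_mul_right _ _
  · intro j hj
    have h3 := coeff_X_pow_mul ((R j) ^ N * W.comp (X + C (j : ZMod p))) N 0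
    rw [zero_add] at h3
    rw [hG j hj, h3, mul_coeff_zero, coeff_zero_eq_eval_zero, coeff_zero_eq_eval_zero, eval_pow,
      eval_comp]
    have h4 : (X + C (j : ZMod p)).eval 0 = (j : ZMod p) := by simp
    rw [h4, hWev j hj]
    have h5 := pow_ne_zero N (hR0 j hj)
    field_simp

theorem normal {p : ℕ} [Fact p.Prime] (f N D : ℕ) (hf : f + 2 ≤ p)
    (L : (ZMod p)[X] →ₗ[ZMod p] ZMod p)
    (hL : ∀ h : (ZMod p)[X], h.natDegree ≤ f + 1 → L (h.comp (X + 1) - h) = (derivative h).eval 0)
    (hbox : (N + 1) * (D + 1) ≤ f + 2) (A : ℕ → (ZMod p)[X]) (hA : ∀ r < N, (A r).natDegree ≤ D)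
    (hrel : ∀ g : (ZMod p)[X], g.natDegree < N * (D + 1) →
      L (∑ r ∈ range N, derivative^[r] (A r * g)) = 0) : ∀ r < N, A r = 0 := by
  induction N with
  | zero => intro r hr; omega
  | succ N ih =>
    have hp : p.Prime := Fact.out
    have hexp : (N + 1 + 1) * (D + 1) = (N + 1) * (D + 1) + D + 1 := by ring
    have hexp2 : (N + 1) * (D + 1) = N * (D + 1) + D + 1 := by ring
    have hDp : D + 1 < p := by omega
    have hNp : N + 1 < p := by
      have : N + 1 + 1 ≤ (N + 1 + 1) * (D + 1) := Nat.le_mul_of_pos_right _ (by omega)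
      omega
    have hfac : ((N + 1).factorial : ZMod p) ≠ 0 := by
      intro h
      rw [ZMod.natCast_eq_zero_iff, hp.dvd_factorial] at h
      omega
    -- the top polynomial vanishes
    have htop : A N = 0 := by
      have hpsi : ∀ v : ℕ → ZMod p, psi D (A N) v = 0 := by
        intro v
        obtain ⟨G, hGdeg, hGdvd, hGc⟩ := nodes (p := p) (N + 1) D (by omega) v
        have hgdeg : (dp^[D + 1] G).natDegree < (N + 1) * (D + 1) := by
          have := natDegree_dp_iter (D + 1) G
          omega
        have h1 := hrel _ hgdeg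
        rw [map_sum] at h1
        have h2 : ∀ r ∈ range (N + 1), L (derivative^[r] (A r * dp^[D + 1] G)) =
            ((r + 1).factorial : ZMod p) * (kap D (A r) G).coeff (r + 1) := by
          intro r hr
          rw [mem_range] at hr
          rw [kap_spec D (A r) G (hA r hr), derivative_iter_dp]
          have h3 : (derivative^[r] (kap D (A r) G)).natDegree ≤ f + 1 := by
            refine (natDegree_derivative_iter r _).trans ?_
            refine natDegree_kap D _ _ _ (hA r hr) (by omega) (hGdeg.trans (by omega))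
          have h4 := hL _ h3
          unfold dp
          rw [h4, ← Function.iterate_succ_apply' (derivative (R := ZMod p)) r,
            ← coeff_zero_eq_eval_zero, coeff_iterate_derivative, zero_add,
            Nat.descFactorial_self, nsmul_eq_mul]
        rw [sum_congr rfl h2, sum_range_succ] at h1
        have h5 : ∑ r ∈ range N, ((r + 1).factorial : ZMod p) * (kap D (A r) G).coeff (r + 1) = 0 := by
          refine sum_eq_zero fun r hr => ?_
          rw [mem_range] at hr
          obtain ⟨c, hc⟩ := kap_dvd (N + 1) D (A r) G hGdvd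
          rw [hc, coeff_X_pow_mul', if_neg (by omega), mul_zero]
        rw [h5, zero_add, kap_coeff (N + 1) D (A N) G hGdvd] at h1
        rw [← psi_congr D (A N) _ v hGc]
        exact (mul_eq_zero.1 h1).resolve_left hfac
      have hroots := psi_inj D (A N) hpsi
      by_contra hne
      have hsub : (range (D + 1)).image (fun l : ℕ => (-1 - (l : ZMod p))) ⊆ (A N).roots.toFinset := by
        intro x hx
        rw [mem_image] at hx
        obtain ⟨l, hl, rfl⟩ := hx
        rw [mem_range] at hl
        rw [Multiset.mem_toFinset, mem_roots hne]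
        exact hroots l (by omega)
      have hcard : ((range (D + 1)).image (fun l : ℕ => (-1 - (l : ZMod p)))).card = D + 1 := by
        rw [card_image_of_injOn, card_range]
        intro i hi j hj hij
        by_contra hne2
        rw [mem_coe, mem_range] at hi hj
        have h6 : (j : ZMod p) - (i : ZMod p) = 0 := by
          have : (-1 - (i : ZMod p)) = (-1 - (j : ZMod p)) := hij
          linear_combination this
        exact node_ne D (by omega) i j (by omega) (by omega) hne2 h6
      have h7 := card_le_card hsub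
      rw [hcard] at h7
      have h8 := (Multiset.toFinset_card_le (A N).roots).trans (card_roots' (A N))
      have h9 := hA N (by omega)
      omega
    have hlow := ih (by
      have : (N + 1) * (D + 1) ≤ (N + 1 + 1) * (D + 1) := Nat.mul_le_mul_right _ (by omega)
      omega) (fun r hr => hA r (by omega)) (by
        intro g hg
        have h1 := hrel g (by omega)
        rw [sum_range_succ, htop, zero_mul, iterate_derivative_zero, add_zero] at h1
        exact h1)
    intro r hr
    rcases Nat.lt_succ_iff_lt_or_eq.1 hr with h | h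
    · exact hlow r h
    · rw [h, htop]

end Pool.Agent.Lib.MP_a3a416_nt.EV
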