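import Pool.Agent.Lib.MP_a3a416_nt.EV.Rec
import Pool.Agent.Lib.MP_a3a416_nt.EV.Normal

/-!
# EV-Count: left multiples of a recurrence, linear algebra
-/

namespace Pool.Agent.Lib.MP_a3a416_nt.EV

open Polynomial Finset

section

variable {F : Type*} [Field F]

/-- `opn n A` as a linear map -/
noncomputable def opnL (n : ℕ) (A : ℕ → F[X]) : F[X] →ₗ[F] F[X] where
  toFun := opn n A
  map_add' g h := by
    unfold opn
    rw [← sum_add_distrib]
    exact sum_congr rfl fun r _ => by rw [mul_add, iterate_map_add]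
  map_smul' c g := by
    unfold opn
    rw [RingHom.id_apply, smul_sum]
    exact sum_congr rfl fun r _ => by rw [mul_smul_comm, iterate_derivative_smul]

theorem opnL_apply (n : ℕ) (A : ℕ → F[X]) (g : F[X]) : opnL n A g = opn n A g := rfl

/-- the functional `x ^ k ↦ b_k` -/
noncomputable def LL (b : ℕ → F) : F[X] →ₗ[F] F := (basisMonomials F).constr F b

theorem LL_X_pow (b : ℕ → F) (k : ℕ) : LL b (X ^ k) = b k := by
  unfold LL
  have h := (basisMonomials F).constr_basis F b k
  rw [coe_basisMonomials] at h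
  rw [X_pow_eq_monomial]
  exact h

theorem as_sum (g : F[X]) (n : ℕ) (hg : g.natDegree < n) :
    g = ∑ k ∈ range n, g.coeff k • (X ^ k : F[X]) := by
  conv_lhs => rw [as_sum_range' g n hg]
  exact sum_congr rfl fun k _ => by rw [← C_mul_X_pow_eq_monomial, smul_eq_C_mul]

theorem LL_diff (b : ℕ → F) (f : ℕ)
    (hb : ∀ n, n ≤ f + 1 → ∑ k ∈ range n, ((n.choose k : ℕ) : F) * b k = if n = 1 then 1 else 0)
    (h : F[X]) (hh : h.natDegree ≤ f + 1) :
    LL b (h.comp (X + 1) - h) = (derivative h).eval 0 := by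
  have key : ∀ n ≤ f + 1, LL b ((X ^ n : F[X]).comp (X + 1) - X ^ n) =
      (derivative (X ^ n : F[X])).eval 0 := by
    intro n hn
    rw [X_pow_comp, add_pow, sum_range_succ, Nat.choose_self, Nat.sub_self, one_pow, mul_one,
      Nat.cast_one, mul_one, add_sub_cancel_right, map_sum]
    have h1 : ∀ k ∈ range n, LL b (X ^ k * 1 ^ (n - k) * ((n.choose k : ℕ) : F[X])) =
        ((n.choose k : ℕ) : F) * b k := by
      intro k _
      rw [one_pow, mul_one, mul_comm, ← C_eq_natCast, ← smul_eq_C_mul, map_smul, LL_X_pow,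
        smul_eq_mul]
    rw [sum_congr rfl h1, hb n hn, derivative_X_pow, eval_mul, eval_C, eval_pow, eval_X]
    split_ifs with h2
    · rw [h2, Nat.cast_one, Nat.sub_self, pow_zero, mul_one]
    · rcases Nat.eq_zero_or_pos n with h3 | h3
      · rw [h3, Nat.cast_zero, zero_mul]
      · rw [zero_pow (by omega), mul_zero]
  let T1 : F[X] →ₗ[F] F :=
    { toFun := fun h => LL b (h.comp (X + 1) - h)
      map_add' := fun g h => by rw [add_comp, ← map_add]; congr 1; ring
      map_smul' := fun c h => by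
        rw [smul_comp, ← smul_sub, map_smul, RingHom.id_apply] }
  let T2 : F[X] →ₗ[F] F :=
    { toFun := fun h => (derivative h).eval 0
      map_add' := fun g h => by rw [derivative_add, eval_add]
      map_smul' := fun c h => by rw [derivative_smul, eval_smul, RingHom.id_apply] }
  change T1 h = T2 h
  rw [as_sum h (f + 2) (by omega), map_sum, map_sum]
  refine sum_congr rfl fun n hn => ?_
  rw [mem_range] at hn
  rw [map_smul, map_smul]
  congr 1
  exact key n (by omega)

/-- the coefficients of an operator -/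
noncomputable def BB {n m : ℕ} (β : Fin n × Fin m → F) (j : ℕ) : F[X] :=
  if h : j < n then ∑ l : Fin m, C (β (⟨j, h⟩, l)) * X ^ (l : ℕ) else 0

theorem BB_natDegree {n m : ℕ} (β : Fin n × Fin m → F) (j : ℕ) :
    (BB β j).natDegree ≤ m - 1 := by
  unfold BB
  split_ifs with h
  · refine natDegree_sum_le_of_forall_le _ _ fun l _ => ?_
    have := l.2
    exact (natDegree_C_mul_X_pow_le _ _).trans (by omega)
  · rw [natDegree_zero]
    exact Nat.zero_le _

theorem BB_ne {n m : ℕ} (β : Fin n × Fin m → F) (hβ : β ≠ 0) : ∃ j < n, BB β j ≠ 0 := by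
  by_contra hcon
  push Not at hcon
  apply hβ
  funext ⟨j, l⟩
  have h := hcon j j.2
  unfold BB at h
  rw [dif_pos j.2] at h
  have h2 := congrArg (fun P : F[X] => P.coeff l) h
  simp only [finsetSum_coeff, coeff_C_mul, coeff_X_pow, coeff_zero] at h2
  rw [sum_eq_single l] at h2
  · rw [if_pos rfl, mul_one] at h2
    exact h2
  · intro k _ hk
    rw [if_neg (fun h => hk (Fin.ext h.symm)), mul_zero]
  · intro h
    exact absurd (mem_univ _) h

theorem rel_X_pow {n m : ℕ} (L : F[X] →ₗ[F] F) (d : ℕ) (A : ℕ → F[X])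
    (hA : ∀ r, d + 1 ≤ r → A r = 0) (β : Fin n × Fin m → F) (k : ℕ) :
    L (opn (d + n) (Phi n A (BB β)) (X ^ k)) = ∑ j : Fin n, ∑ l : Fin m,
      β (j, l) * (((k.descFactorial j : ℕ) : F) * L (opn (d + 1) A (X ^ (k - j + l)))) := by
  rw [opn_Phi n d A _ hA, map_sum, Finset.sum_range]
  refine sum_congr rfl fun j _ => ?_
  have h1 : BB β j * derivative^[(j : ℕ)] (X ^ k : F[X]) = ∑ l : Fin m,
      (β (j, l) * ((k.descFactorial j : ℕ) : F)) • (X ^ (k - j + l) : F[X]) := by
    unfold BB
    rw [dif_pos j.2, sum_mul]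
    refine sum_congr rfl fun l _ => ?_
    rw [iterate_derivative_X_pow_eq_smul, smul_eq_C_mul, smul_eq_C_mul, C_mul, pow_add]
    ring
  rw [h1, ← opnL_apply, map_sum, map_sum]
  refine sum_congr rfl fun l _ => ?_
  rw [map_smul, map_smul, smul_eq_mul, opnL_apply, mul_assoc]

end

theorem main_box {p : ℕ} [Fact p.Prime] (f : ℕ) (hf : f + 2 ≤ p) (b : ℕ → ZMod p)
    (hb : ∀ n, n ≤ f + 1 →
      ∑ k ∈ range n, ((n.choose k : ℕ) : ZMod p) * b k = if n = 1 then 1 else 0)
    (e s d M N' D' : ℕ) (q : ℕ → (ZMod p)[X]) (hq : ∀ i ≤ s, (q i).natDegree ≤ d)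
    (hq0 : ∃ i ≤ s, q i ≠ 0) (lo hi : ℕ → ℕ)
    (hM : ∀ k : ℕ, e < k → k + s ≤ f → (∀ j < M, k ∉ Icc (lo j) (hi j)) →
      ∑ i ∈ range (s + 1), (q i).eval (k : ZMod p) * b (k + i) = 0)
    (hN' : 1 ≤ N') (hD' : 1 ≤ D')
    (h1 : e + ∑ j ∈ range M, (hi j - lo j) + N' + M * (N' + D' - 1) < N' * D')
    (h2 : (N' + d + 1) * (D' + s + d) ≤ f + 2) : False := by
  classical
  obtain ⟨A, hA1, hA2, hA3, hA4⟩ := exists_op s d q hq
  have hA0 := hA3 hq0
  set L := LL b with hLdef
  have hL := LL_diff b f hb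
  obtain ⟨D, hD⟩ : ∃ D, D + 1 = D' + s + d := ⟨D' + s + d - 1, by omega⟩
  set N := d + N' with hN
  have hbox : (N + 1) * (D + 1) ≤ f + 2 := by
    rw [hD, hN, show d + N' + 1 = N' + d + 1 by omega]
    exact h2
  -- the sequence
  set u : ℕ → ZMod p := fun m => L (opn (d + 1) A (X ^ m)) with hu
  have hu' : ∀ m, u m = ∑ i ∈ range (s + 1), (q i).eval (m : ZMod p) * b (m + i) := by
    intro m
    rw [hu]
    simp only
    rw [hA4 L m]
    exact sum_congr rfl fun i _ => by rw [hLdef, LL_X_pow]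
  set K := range (e + N') ∪
    (range M).biUnion (fun j => Icc (lo j - (D' - 1)) (hi j + (N' - 1))) with hK
  have hKcard : K.card < N' * D' := by
    refine lt_of_le_of_lt ((card_union_le _ _).trans ?_) h1
    rw [card_range]
    have h6 : ((range M).biUnion fun j => Icc (lo j - (D' - 1)) (hi j + (N' - 1))).card ≤
        ∑ j ∈ range M, ((hi j - lo j) + (N' + D' - 1)) := by
      refine card_biUnion_le.trans (sum_le_sum fun j _ => ?_)
      rw [Nat.card_Icc]
      omega
    rw [sum_add_distrib, sum_const, card_range, smul_eq_mul] at h6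
    omega
  -- the linear map
  let T : (Fin N' × Fin D' → ZMod p) →ₗ[ZMod p] (K → ZMod p) :=
    { toFun := fun β k => ∑ j : Fin N', ∑ l : Fin D',
        β (j, l) * ((((k : ℕ).descFactorial j : ℕ) : ZMod p) * u ((k : ℕ) - j + l))
      map_add' := fun β γ => by
        funext k
        simp only [Pi.add_apply, add_mul, sum_add_distrib]
      map_smul' := fun c β => by
        funext k
        simp only [Pi.smul_apply, smul_eq_mul, RingHom.id_apply, mul_sum, mul_assoc] }
  have hfin : Module.finrank (ZMod p) (K → ZMod p) <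
      Module.finrank (ZMod p) (Fin N' × Fin D' → ZMod p) := by
    rw [Module.finrank_fintype_fun_eq_card, Module.finrank_fintype_fun_eq_card, Fintype.card_coe,
      Fintype.card_prod, Fintype.card_fin, Fintype.card_fin]
    exact hKcard
  obtain ⟨β, hβ, hβ0⟩ := (Submodule.ne_bot_iff _).1 (LinearMap.ker_ne_bot_of_finrank_lt (f := T) hfin)
  rw [LinearMap.mem_ker] at hβ
  -- all relations
  have hrelk : ∀ k < N * (D + 1), L (opn N (Phi N' A (BB β)) (X ^ k)) = 0 := by
    intro k hk
    rw [hN, rel_X_pow L d A hA1 β k]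
    by_cases hkK : k ∈ K
    · exact congrFun hβ ⟨k, hkK⟩
    · refine sum_eq_zero fun j _ => sum_eq_zero fun l _ => ?_
      rw [hK, mem_union, not_or, mem_range, mem_biUnion] at hkK
      obtain ⟨hk1, hk2⟩ := hkK
      have hj := j.2
      have hl := l.2
      have hu0 : u (k - j + l) = 0 := by
        rw [hu']
        have h5 : (N + 1) * (D + 1) = N * (D + 1) + (D + 1) := by ring
        refine hM _ (by omega) (by omega) fun i hi' hmem => hk2 ⟨i, mem_range.2 hi', ?_⟩
        rw [mem_Icc] at hmem ⊢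
        omega
      change β (j, l) * ((((k : ℕ).descFactorial j : ℕ) : ZMod p) * u (k - j + l)) = 0
      rw [hu0, mul_zero, mul_zero]
  have hnorm := normal f N D hf L hL hbox (Phi N' A (BB β)) (fun r _ => by
    refine (Phi_degree N' (s + d) (D' - 1) A (BB β) hA2 (BB_natDegree β) r).trans ?_
    omega) (fun g hg => by
      change L (opn N (Phi N' A (BB β)) g) = 0
      rw [as_sum g _ hg, ← opnL_apply, map_sum, map_sum]
      refine sum_eq_zero fun k hk => ?_
      rw [mem_range] at hk
      rw [map_smul, map_smul, opnL_apply, hrelk k hk, smul_zero])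
  obtain ⟨r, hr, hr0⟩ := Phi_ne_zero N' d A (BB β) hA1 hA0 (BB_ne β hβ0)
  exact hr0 (hnorm r hr)

end Pool.Agent.Lib.MP_a3a416_nt.EV
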