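import Pool.Agent.Lib.MP_a3a416_nt.EV.Main

/-!
# EV-First: the window form and the first indices
-/

namespace Pool.Agent.Lib.MP_a3a416_nt.EV

open Finset EP

/-- every window contains many `k` with `p ∤ B_k` -/
theorem window_count (p : ℕ) (hp : p.Prime) (e f : ℕ) (hfp : f + 2 ≤ p) :
    (f - e) ^ 2 ≤ 16 * f *
      (((Ioc e f).filter fun k : ℕ => ¬ (p : ℤ) ∣ (bernoulli k).num).card + 1) ^ 2 := by
  classical
  set S := (Ioc e f).filter fun k : ℕ => ¬ (p : ℤ) ∣ (bernoulli k).num with hS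
  let w : ℕ → ℕ := fun j => if h : j < S.card then S.orderEmbOfFin rfl ⟨j, h⟩ else 0
  have h := main1 p hp e f 0 0 S.card hfp (fun _ => 1) (fun i _ => by simp)
    ⟨0, le_rfl, 0, by
      rw [Polynomial.coeff_one_zero]
      intro h
      have := Int.le_of_dvd one_pos h
      have := hp.two_le
      omega⟩ w w (fun k hk1 hk2 hk3 => by
      by_contra hcon
      rw [zero_add, sum_range_one, add_zero, Polynomial.eval_one, Int.cast_one, one_mul] at hcon
      have hk : k ∈ S := by
        rw [hS, mem_filter, mem_Ioc]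
        exact ⟨⟨hk1, by omega⟩, hcon⟩
      have hr : k ∈ Set.range (S.orderEmbOfFin rfl) := by
        rw [range_orderEmbOfFin]
        exact hk
      obtain ⟨⟨j, hj⟩, hjk⟩ := hr
      apply hk3 j hj
      have : w j = k := by
        simp only [w]
        rw [dif_pos hj, hjk]
      rw [this, mem_Icc]
      exact ⟨le_rfl, le_rfl⟩)
  rw [sum_eq_zero (fun j _ => Nat.sub_self _), Nat.sub_zero] at h
  calc (f - e) ^ 2 ≤ _ := h
    _ = _ := by ring

/-- a recurrence of order `s` and degree `d` fails at one of the first `(d + 1) (s + d + 1)` indices -/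
theorem first (p : ℕ) (hp : p.Prime) (s d : ℕ) (hbox : (d + 2) * (s + d + 1) ≤ p)
    (q : ℕ → Polynomial ℤ) (hq : ∀ i ≤ s, (q i).natDegree ≤ d)
    (hq0 : ∃ i ≤ s, ∃ j, ¬ (p : ℤ) ∣ (q i).coeff j) :
    ∃ k < (d + 1) * (s + d + 1), ¬ (p : ℤ) ∣
      (∑ i ∈ range (s + 1), (((q i).eval (k : ℤ) : ℤ) : ℚ) * bernoulli (k + i)).num := by
  classical
  have : Fact p.Prime := ⟨hp⟩
  by_contra hcon
  push Not at hcon
  have hp2 := hp.two_le
  have hexp : (d + 2) * (s + d + 1) = (d + 1) * (s + d + 1) + (s + d + 1) := by ring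
  obtain ⟨A, hA1, hA2, hA3, hA4⟩ := exists_op s d (fun i => (q i).map (Int.castRingHom (ZMod p)))
    (fun i hi => Polynomial.natDegree_map_le.trans (hq i hi))
  obtain ⟨i, hi, j, hj⟩ := hq0
  obtain ⟨r, hr⟩ := hA3 ⟨i, hi, fun h => hj (by
    have h3 := congrArg (fun r => r.coeff j) h
    simp only [Polynomial.coeff_map, Polynomial.coeff_zero, eq_intCast] at h3
    exact (ZMod.intCast_zmod_eq_zero_iff_dvd _ _).1 h3)⟩
  have hL := LL_diff (bb p) (p - 2) (fun n hn => bb_rec p n (by omega))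
  have hrelk : ∀ k < (d + 1) * (s + d + 1), LL (bb p) (opn (d + 1) A (Polynomial.X ^ k)) = 0 := by
    intro k hk
    rw [hA4 (LL (bb p)) k]
    have h5 : ∀ i, ((q i).map (Int.castRingHom (ZMod p))).eval ((k : ℕ) : ZMod p) =
        (((q i).eval (k : ℤ) : ℤ) : ZMod p) := by
      intro i
      have h6 := Polynomial.eval_intCast_map (Int.castRingHom (ZMod p)) (q i) (k : ℤ)
      rw [Int.cast_natCast] at h6
      rw [h6]
      rfl
    rw [Finset.sum_congr rfl fun i _ => by rw [h5 i, LL_X_pow]]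
    exact (bb_lin p (fun i => (q i).eval (k : ℤ)) k s (by omega)).2 (hcon k hk)
  have hnorm := normal (p - 2) (d + 1) (s + d) (by omega) (LL (bb p)) hL
    (by rw [show d + 1 + 1 = d + 2 by ring]; omega) A (fun r _ => hA2 r)
    (fun g hg => by
      change LL (bb p) (opn (d + 1) A g) = 0
      rw [as_sum g _ hg, ← opnL_apply, map_sum, map_sum]
      refine sum_eq_zero fun k hk => ?_
      rw [mem_range] at hk
      rw [map_smul, map_smul, opnL_apply, hrelk k hk, smul_zero])
  rcases Nat.lt_or_ge r (d + 1) with h | h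
  · exact hr (hnorm r h)
  · exact hr (hA1 r h)

end Pool.Agent.Lib.MP_a3a416_nt.EV
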