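import Mathlib

/-!
# EV-Param: the choice of the parameters

`a = M + d + 1`, `b = M + s + d + 1`, `z = f - e`, `E = e + M²`, `α = ⌊√(a E / (b + 1))⌋ + 1`, `β = ⌊E / α⌋ + 1`,
`N' = M + α`, `D' = M + β + 1`.
-/

namespace Pool.Agent.Lib.MP_a3a416_nt.EV

theorem params (e f s d M : ℕ) (hef : e < f)
    (h : 16 * f * ((M + d + 1) * (M + s + d + 1)) < (f - e) ^ 2) :
    ∃ N' D' : ℕ, 1 ≤ N' ∧ 1 ≤ D' ∧ e + N' + M * (N' + D' - 1) < N' * D' ∧
      (N' + d + 1) * (D' + s + d) ≤ f + 2 := by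
  obtain ⟨z, rfl⟩ : ∃ z, f = e + z := ⟨f - e, by omega⟩
  rw [Nat.add_sub_cancel_left] at h
  obtain ⟨a, ha⟩ : ∃ a, a = M + d + 1 := ⟨_, rfl⟩
  obtain ⟨b, hb⟩ : ∃ b, b = M + s + d + 1 := ⟨_, rfl⟩
  rw [← ha, ← hb] at h
  have ha1 : 1 ≤ a := by omega
  have hb1 : 1 ≤ b := by omega
  have hM : M ^ 2 + a + b ≤ a * b + 1 := by
    rw [ha, hb]
    nlinarith [Nat.zero_le (M * d), Nat.zero_le (M * s), Nat.zero_le (d * s), Nat.zero_le (d * d)]
  have hbP : b ≤ a * b := Nat.le_mul_of_pos_left b ha1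
  obtain ⟨P, hP⟩ : ∃ P, P = a * b := ⟨_, rfl⟩
  rw [← hP] at h hM hbP
  have hz : 16 * P < z := by
    by_contra hcon
    push Not at hcon
    have h1 : z ^ 2 ≤ 16 * (e + z) * P := by nlinarith [Nat.zero_le (e * P), Nat.zero_le (z * P)]
    omega
  obtain ⟨E, hE⟩ : ∃ E, E = e + M ^ 2 := ⟨_, rfl⟩
  obtain ⟨m, hm⟩ : ∃ m, m = a * E / (b + 1) := ⟨_, rfl⟩
  obtain ⟨σ, hσ⟩ : ∃ σ, σ = Nat.sqrt m := ⟨_, rfl⟩
  have s1 : σ * σ ≤ m := by rw [hσ]; exact Nat.sqrt_le m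
  have s2 : m < (σ + 1) * (σ + 1) := by rw [hσ]; exact Nat.lt_succ_sqrt m
  have m1 : m * (b + 1) ≤ a * E := by rw [hm]; exact Nat.div_mul_le_self _ _
  have m2 : a * E < (m + 1) * (b + 1) := by
    rw [hm]
    have := Nat.lt_div_mul_add (a := a * E) (b := b + 1) (by omega)
    nlinarith
  obtain ⟨α, hα⟩ : ∃ α, α = σ + 1 := ⟨_, rfl⟩
  rw [← hα] at s2
  have hα1 : 1 ≤ α := by omega
  obtain ⟨γ, hγ⟩ : ∃ γ, γ = E / α := ⟨_, rfl⟩
  have g1 : γ * α ≤ E := by rw [hγ]; exact Nat.div_mul_le_self _ _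
  have g2 : E < (γ + 1) * α := by
    rw [hγ]
    have := Nat.lt_div_mul_add (a := E) (b := α) (by omega)
    nlinarith
  have k1 : a * E < α * α * (b + 1) := by
    refine lt_of_lt_of_le m2 (Nat.mul_le_mul_right _ ?_)
    omega
  have k2 : a * γ < α * (b + 1) := by
    refine lt_of_mul_lt_mul_right (a := α) ?_ (Nat.zero_le _)
    calc a * γ * α = a * (γ * α) := by ring
      _ ≤ a * E := Nat.mul_le_mul_left _ g1
      _ < α * α * (b + 1) := k1
      _ = α * (b + 1) * α := by ring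
  obtain ⟨t, ht⟩ : ∃ t, t = σ * (b + 1) := ⟨_, rfl⟩
  have t1 : t * t ≤ 2 * P * (e + z) := by
    have e1 : t * t = σ * σ * (b + 1) * (b + 1) := by rw [ht]; ring
    have e2 : σ * σ * (b + 1) * (b + 1) ≤ a * E * (b + 1) :=
      Nat.mul_le_mul_right _ ((Nat.mul_le_mul_right _ s1).trans m1)
    have e3 : E ≤ e + z := by rw [hE]; omega
    have e4 : a * (b + 1) ≤ 2 * P := by rw [hP]; nlinarith
    calc t * t ≤ a * E * (b + 1) := by rw [e1]; exact e2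
      _ = a * (b + 1) * E := by ring
      _ ≤ 2 * P * (e + z) := Nat.mul_le_mul e4 e3
  have t2 : 8 * t < 3 * z := by
    by_contra hcon
    push Not at hcon
    have e1 : (3 * z) * (3 * z) ≤ (8 * t) * (8 * t) := Nat.mul_le_mul hcon hcon
    have e2 : (3 * z) * (3 * z) = 9 * z ^ 2 := by ring
    have e3 : (8 * t) * (8 * t) = 64 * (t * t) := by ring
    have e4 : 64 * (2 * P * (e + z)) = 8 * (16 * (e + z) * P) := by ring
    have e5 : 64 * (t * t) ≤ 64 * (2 * P * (e + z)) := Nat.mul_le_mul_left _ t1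
    rw [e2, e3] at e1
    rw [e4] at e5
    omega
  refine ⟨M + α, M + (γ + 1) + 1, by omega, by omega, ?_, ?_⟩
  · have e1 : M + α + (M + (γ + 1) + 1) - 1 = 2 * M + α + (γ + 1) := by omega
    have e2 : (M + α) * (M + (γ + 1) + 1) =
        M ^ 2 + M * (γ + 1) + M + M * α + (γ + 1) * α + α := by ring
    have e3 : M * (2 * M + α + (γ + 1)) = 2 * M ^ 2 + M * α + M * (γ + 1) := by ring
    rw [e1, e2, e3]
    omega
  · have e1 : (M + α + d + 1) * (M + (γ + 1) + 1 + s + d) = (α + a) * (γ + 1 + b) := by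
      rw [ha, hb]; ring
    rw [e1]
    have e2 : (α + a) * (γ + 1 + b) = γ * α + α * (b + 1) + a * γ + a + P := by rw [hP]; ring
    rw [e2]
    have e3 : α * (b + 1) = t + (b + 1) := by rw [hα, ht]; ring
    omega

end Pool.Agent.Lib.MP_a3a416_nt.EV
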