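import Pool.Agent.Lib.MP_a3a416_nt.EV.Count
import Pool.Agent.Lib.MP_a3a416_nt.EV.Param
import Pool.Agent.Lib.MP_a3a416_nt.EP.Cast

/-!
# EV-Main: recurrences for the Bernoulli numbers modulo every prime
-/

namespace Pool.Agent.Lib.MP_a3a416_nt.EV

open Finset EP

/-- recurrences for the Bernoulli numbers modulo `p` in a window, with `m` exceptional intervals -/
theorem main1 (p : ℕ) (hp : p.Prime) (e f s d m : ℕ) (hfp : f + 2 ≤ p)
    (q : ℕ → Polynomial ℤ) (hq : ∀ i ≤ s, (q i).natDegree ≤ d)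
    (hq0 : ∃ i ≤ s, ∃ j, ¬ (p : ℤ) ∣ (q i).coeff j) (u v : ℕ → ℕ)
    (hM : ∀ k : ℕ, e < k → k + s ≤ f → (∀ j < m, k ∉ Icc (u j) (v j)) → (p : ℤ) ∣
      (∑ i ∈ range (s + 1), (((q i).eval (k : ℤ) : ℤ) : ℚ) * bernoulli (k + i)).num) :
    (f - e - ∑ j ∈ range m, (v j - u j)) ^ 2 ≤ 16 * f * ((m + d + 1) * (m + s + d + 1)) := by
  classical
  have : Fact p.Prime := ⟨hp⟩
  by_contra hcon
  push Not at hcon
  have he : e + ∑ j ∈ range m, (v j - u j) < f := by
    by_contra h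
    push Not at h
    have h0 : f - e - ∑ j ∈ range m, (v j - u j) = 0 := by omega
    rw [h0] at hcon
    exact absurd hcon (Nat.not_lt_zero _)
  rw [Nat.sub_sub] at hcon
  obtain ⟨N', D', h1, h2, h3, h4⟩ := params _ f s d m he hcon
  refine main_box f hfp (bb p) (fun n hn => bb_rec p n (by omega)) e s d m N' D'
    (fun i => (q i).map (Int.castRingHom (ZMod p)))
    (fun i hi => Polynomial.natDegree_map_le.trans (hq i hi)) ?_ u v ?_ h1 h2 h3 h4
  · obtain ⟨i, hi, j, hj⟩ := hq0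
    refine ⟨i, hi, fun h => hj ?_⟩
    have h3 := congrArg (fun r => r.coeff j) h
    simp only [Polynomial.coeff_map, Polynomial.coeff_zero, eq_intCast] at h3
    exact (ZMod.intCast_zmod_eq_zero_iff_dvd _ _).1 h3
  · intro k hk1 hk2 hk3
    have h5 : ∀ i, ((q i).map (Int.castRingHom (ZMod p))).eval ((k : ℕ) : ZMod p) =
        (((q i).eval (k : ℤ) : ℤ) : ZMod p) := by
      intro i
      have h6 := Polynomial.eval_intCast_map (Int.castRingHom (ZMod p)) (q i) (k : ℤ)
      rw [Int.cast_natCast] at h6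
      rw [h6]
      rfl
    rw [Finset.sum_congr rfl fun i _ => by rw [h5 i]]
    exact (bb_lin p (fun i => (q i).eval (k : ℤ)) k s (by omega)).2 (hM k hk1 hk2 hk3)

end Pool.Agent.Lib.MP_a3a416_nt.EV
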