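import Pool.Agent.Lib.MP_a3a416_nt.EV.Weyl

/-!
# EV-Rec: a recurrence as a differential operator

The recurrence `∑ i ≤ s, q_i(k) b_{k+i}`, `deg q_i ≤ d`, is `L (Q x^k)`, `L (x^k) = b_k`, for an operator
`Q = ∑ r ≤ d, D^r ∘ A_r` with `deg A_r ≤ s + d`.
-/

namespace Pool.Agent.Lib.MP_a3a416_nt.EV

open Polynomial Finset

variable {F : Type*} [Field F]

/-- `(X + i + 1) (X + i + 2) ⋯ (X + i + r)` -/
noncomputable def rho (i r : ℕ) : F[X] := ∏ l ∈ range r, (X + C ((i + 1 + l : ℕ) : F))

theorem rho_monic (i r : ℕ) : (rho i r : F[X]).Monic :=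
  monic_prod_of_monic _ _ fun _ _ => monic_X_add_C _

theorem rho_natDegree (i r : ℕ) : (rho i r : F[X]).natDegree = r := by
  unfold rho
  rw [natDegree_prod_of_monic _ _ fun _ _ => monic_X_add_C _,
    sum_congr rfl fun l _ => natDegree_X_add_C _, sum_const, card_range, smul_eq_mul, mul_one]

theorem rho_eval (i r k : ℕ) : (rho i r : F[X]).eval (k : F) = (((i + r + k).descFactorial r : ℕ) : F) := by
  have h1 : (i + r + k).descFactorial r = ∏ l ∈ range r, (k + i + 1 + l) := by
    rw [show i + r + k = k + i + r by omega, Nat.add_descFactorial_eq_ascFactorial,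
      Nat.ascFactorial_eq_prod_range]
  rw [h1]
  unfold rho
  rw [eval_prod, Nat.cast_prod]
  refine prod_congr rfl fun l _ => ?_
  rw [eval_add, eval_X, eval_C]
  push_cast
  ring

theorem expand_rho (i d : ℕ) : ∀ q : F[X], q.natDegree ≤ d → ∃ c : ℕ → F,
    q = ∑ r ∈ range (d + 1), C (c r) * rho i r := by
  induction d with
  | zero =>
    intro q hq
    refine ⟨fun _ => q.coeff 0, ?_⟩
    rw [sum_range_one]
    have h1 : (rho i 0 : F[X]) = 1 := by
      unfold rho
      rw [range_zero, prod_empty]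
    rw [h1, mul_one]
    exact eq_C_of_natDegree_le_zero hq
  | succ d ih =>
    intro q hq
    obtain ⟨c, hc⟩ := ih (q - C (q.coeff (d + 1)) * rho i (d + 1)) (by
      rw [natDegree_le_iff_coeff_eq_zero]
      intro n hn
      rw [coeff_sub, coeff_C_mul]
      rcases Nat.lt_or_ge (d + 1) n with h | h
      · have h3 : (rho i (d + 1) : F[X]).coeff n = 0 :=
          coeff_eq_zero_of_natDegree_lt (by rw [rho_natDegree]; exact h)
        rw [coeff_eq_zero_of_natDegree_lt (lt_of_le_of_lt hq h), h3, mul_zero, sub_zero]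
      · have hn' : n = d + 1 := by omega
        have h2 := (rho_monic (F := F) i (d + 1)).coeff_natDegree
        rw [rho_natDegree] at h2
        rw [hn', h2, mul_one, sub_self])
    refine ⟨fun r => if r = d + 1 then q.coeff (d + 1) else c r, ?_⟩
    have h4 : ∑ r ∈ range (d + 1), C (if r = d + 1 then q.coeff (d + 1) else c r) * rho i r =
        ∑ r ∈ range (d + 1), C (c r) * rho i r := by
      refine sum_congr rfl fun r hr => ?_
      rw [mem_range] at hr
      rw [if_neg (by omega)]
    beta_reduce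
    rw [sum_range_succ, if_pos rfl, h4, ← hc]
    ring

theorem exists_op (s d : ℕ) (q : ℕ → F[X]) (hq : ∀ i ≤ s, (q i).natDegree ≤ d) :
    ∃ A : ℕ → F[X], (∀ r, d + 1 ≤ r → A r = 0) ∧ (∀ r, (A r).natDegree ≤ s + d) ∧
      ((∃ i ≤ s, q i ≠ 0) → ∃ r, A r ≠ 0) ∧ ∀ (L : F[X] →ₗ[F] F) (k : ℕ),
        L (opn (d + 1) A (X ^ k)) = ∑ i ∈ range (s + 1), (q i).eval (k : F) * L (X ^ (k + i)) := by
  classical
  have h1 : ∀ i, ∃ c : ℕ → F, i ≤ s → q i = ∑ r ∈ range (d + 1), C (c r) * rho i r := by
    intro i
    by_cases hi : i ≤ s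
    · obtain ⟨c, hc⟩ := expand_rho i d (q i) (hq i hi)
      exact ⟨c, fun _ => hc⟩
    · exact ⟨0, fun h => absurd h hi⟩
  choose c hc using h1
  refine ⟨fun r => if r < d + 1 then ∑ i ∈ range (s + 1), C (c i r) * X ^ (i + r) else 0, ?_, ?_, ?_, ?_⟩
  · intro r hr
    beta_reduce
    rw [if_neg (by omega)]
  · intro r
    beta_reduce
    split_ifs with h
    · refine natDegree_sum_le_of_forall_le _ _ fun i hi => ?_
      rw [mem_range] at hi
      exact (natDegree_C_mul_X_pow_le _ _).trans (by omega)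
    · rw [natDegree_zero]
      exact Nat.zero_le _
  · rintro ⟨i, hi, hqi⟩
    by_contra hcon
    push Not at hcon
    apply hqi
    rw [hc i hi]
    refine sum_eq_zero fun r hr => ?_
    rw [mem_range] at hr
    have h2 := hcon r
    beta_reduce at h2
    rw [if_pos hr] at h2
    have h3 := congrArg (fun P : F[X] => P.coeff (i + r)) h2
    simp only [finsetSum_coeff, coeff_C_mul, coeff_X_pow, coeff_zero] at h3
    rw [sum_eq_single i] at h3
    · rw [if_pos rfl, mul_one] at h3
      rw [h3, C_0, zero_mul]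
    · intro j _ hj
      rw [if_neg (by omega), mul_zero]
    · intro h
      exact absurd (mem_range.2 (by omega)) h
  · intro L k
    have h2 : opn (d + 1) (fun r => if r < d + 1 then
        ∑ i ∈ range (s + 1), C (c i r) * X ^ (i + r) else 0) (X ^ k) =
        ∑ i ∈ range (s + 1), ((q i).eval (k : F)) • (X ^ (k + i) : F[X]) := by
      unfold opn
      have h3 : ∀ r ∈ range (d + 1), derivative^[r] ((if r < d + 1 then
          ∑ i ∈ range (s + 1), C (c i r) * X ^ (i + r) else 0) * X ^ k) =
          ∑ i ∈ range (s + 1), (c i r * (rho i r : F[X]).eval (k : F)) • (X ^ (k + i) : F[X]) := by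
        intro r hr
        rw [mem_range] at hr
        rw [if_pos hr, sum_mul, iterate_derivative_sum]
        refine sum_congr rfl fun i _ => ?_
        rw [mul_assoc, ← pow_add, iterate_derivative_C_mul, iterate_derivative_X_pow_eq_smul,
          rho_eval, show i + r + k - r = k + i by omega, mul_smul, ← smul_eq_C_mul]
      rw [sum_congr rfl h3, sum_comm]
      refine sum_congr rfl fun i hi => ?_
      rw [mem_range] at hi
      rw [← sum_smul]
      congr 1
      conv_rhs => rw [hc i (by omega)]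
      rw [eval_finsetSum]
      refine sum_congr rfl fun r _ => ?_
      rw [eval_mul, eval_C]
    rw [h2, map_sum]
    refine sum_congr rfl fun i _ => ?_
    rw [map_smul, smul_eq_mul]

end Pool.Agent.Lib.MP_a3a416_nt.EV
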