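import Pool.Agent.Lib.MP_a3a416_nt.EV.Count
import Pool.Agent.Lib.MP_a3a416_nt.EP.Bern

/-!
# EV-Square: the square matrices of Bernoulli numbers which are invertible modulo `p`
-/

namespace Pool.Agent.Lib.MP_a3a416_nt.EV

open Finset EP

private theorem dn_add {p : ℕ} (hp : p.Prime) {a b : ℚ} (ha : ¬ p ∣ a.den) (hb : ¬ p ∣ b.den) :
    ¬ p ∣ (a + b).den := by
  intro h
  rcases (Nat.Prime.dvd_mul hp).1 (h.trans (Rat.add_den_dvd a b)) with h1 | h1
  · exact ha h1
  · exact hb h1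

private theorem dn_mul {p : ℕ} (hp : p.Prime) {a b : ℚ} (ha : ¬ p ∣ a.den) (hb : ¬ p ∣ b.den) :
    ¬ p ∣ (a * b).den := by
  intro h
  rcases (Nat.Prime.dvd_mul hp).1 (h.trans (Rat.mul_den_dvd a b)) with h1 | h1
  · exact ha h1
  · exact hb h1

private theorem dn_int {p : ℕ} (hp : p.Prime) (n : ℤ) : ¬ p ∣ (n : ℚ).den := by
  rw [Rat.den_intCast]
  exact hp.one_lt.ne' ∘ Nat.dvd_one.1

private theorem dn_sum {p : ℕ} (hp : p.Prime) {ι : Type*} (s : Finset ι) (f : ι → ℚ)
    (h : ∀ i ∈ s, ¬ p ∣ (f i).den) : ¬ p ∣ (∑ i ∈ s, f i).den := by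
  classical
  induction s using Finset.induction_on with
  | empty =>
    rw [Finset.sum_empty]
    exact_mod_cast dn_int hp 0
  | insert a s ha ih =>
    rw [Finset.sum_insert ha]
    exact dn_add hp (h a (Finset.mem_insert_self a s))
      (ih fun i hi => h i (Finset.mem_insert_of_mem hi))

private theorem dn_bernoulli {p : ℕ} (hp : p.Prime) (k : ℕ) (hk : k + 2 ≤ p) :
    ¬ p ∣ (bernoulli k).den := by
  induction k using Nat.strong_induction_on with
  | _ k ih =>
    have h1 := sum_bernoulli (k + 1)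
    rw [Finset.sum_range_succ] at h1
    have h2 : ((k + 1).choose k : ℚ) = ((k + 1 : ℕ) : ℚ) := by
      rw [Nat.choose_succ_self_right]
    rw [h2] at h1
    have h3 : ((k + 1 : ℕ) : ℚ) ≠ 0 := by exact_mod_cast Nat.succ_ne_zero k
    have h4 : bernoulli k = (((k + 1 : ℕ) : ℚ))⁻¹ * ((if k + 1 = 1 then 1 else 0) +
        ∑ j ∈ range k, ((-1 : ℚ) * ((k + 1).choose j : ℚ)) * bernoulli j) := by
      have h5 : ((k + 1 : ℕ) : ℚ) * bernoulli k = (if k + 1 = 1 then 1 else 0) -
          ∑ j ∈ range k, ((k + 1).choose j : ℚ) * bernoulli j := by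
        linarith
      have h6 : ∑ j ∈ range k, ((-1 : ℚ) * ((k + 1).choose j : ℚ)) * bernoulli j =
          - ∑ j ∈ range k, ((k + 1).choose j : ℚ) * bernoulli j := by
        rw [← Finset.sum_neg_distrib]
        exact Finset.sum_congr rfl fun j _ => by ring
      rw [h6, ← sub_eq_add_neg, ← h5, ← mul_assoc, inv_mul_cancel₀ h3, one_mul]
    rw [h4]
    refine dn_mul hp ?_ (dn_add hp ?_ (dn_sum hp _ _ fun j hj => ?_))
    · rw [Rat.inv_natCast_den, if_neg (Nat.succ_ne_zero k)]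
      intro h
      have := Nat.le_of_dvd (Nat.succ_pos k) h
      omega
    · split_ifs
      · exact_mod_cast dn_int hp 1
      · exact_mod_cast dn_int hp 0
    · have hj' := mem_range.1 hj
      refine dn_mul hp (dn_mul hp ?_ ?_) (ih j hj' (by omega))
      · rw [Rat.den_neg_eq_den]
        exact_mod_cast dn_int hp 1
      · exact_mod_cast dn_int hp ((k + 1).choose j : ℤ)

private theorem zn {p : ℕ} [Fact p.Prime] {q : ℚ} (h : ¬ p ∣ q.den) : ((q.den : ℕ) : ZMod p) ≠ 0 := by
  intro h1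
  exact h ((ZMod.natCast_eq_zero_iff _ _).1 h1)

private theorem cast_sum {p : ℕ} [Fact p.Prime] {ι : Type*} (s : Finset ι) (f : ι → ℚ)
    (h : ∀ i ∈ s, ¬ p ∣ (f i).den) :
    ((∑ i ∈ s, f i : ℚ) : ZMod p) = ∑ i ∈ s, ((f i : ℚ) : ZMod p) := by
  classical
  have hp : p.Prime := Fact.out
  induction s using Finset.induction_on with
  | empty => rw [Finset.sum_empty, Finset.sum_empty, Rat.cast_zero]
  | insert a s ha ih =>
    rw [Finset.sum_insert ha, Finset.sum_insert ha,
      Rat.cast_add_of_ne_zero (zn (h a (Finset.mem_insert_self a s)))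
        (zn (dn_sum hp s f fun i hi => h i (Finset.mem_insert_of_mem hi))),
      ih fun i hi => h i (Finset.mem_insert_of_mem hi)]

private theorem bb_cast (p : ℕ) [Fact p.Prime] (k : ℕ) : bb p k = ((bernoulli k : ℚ) : ZMod p) := by
  rw [Rat.cast_def]
  rfl

/-- an integral linear form in the Bernoulli numbers modulo `p` -/
theorem bb_form (p : ℕ) [Fact p.Prime] {ι : Type*} (S : Finset ι) (c : ι → ℤ) (κ : ι → ℕ)
    (h : ∀ i ∈ S, κ i + 2 ≤ p) :
    (∑ i ∈ S, ((c i : ℤ) : ZMod p) * bb p (κ i) = 0) ↔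
      (p : ℤ) ∣ (∑ i ∈ S, ((c i : ℤ) : ℚ) * bernoulli (κ i)).num := by
  have hp : p.Prime := Fact.out
  have hb : ∀ i ∈ S, ¬ p ∣ (bernoulli (κ i)).den := fun i hi => dn_bernoulli hp _ (h i hi)
  have hd : ∀ i ∈ S, ¬ p ∣ (((c i : ℤ) : ℚ) * bernoulli (κ i)).den := fun i hi =>
    dn_mul hp (dn_int hp _) (hb i hi)
  have h1 : ∑ i ∈ S, ((c i : ℤ) : ZMod p) * bb p (κ i) =
      ((∑ i ∈ S, ((c i : ℤ) : ℚ) * bernoulli (κ i) : ℚ) : ZMod p) := by
    rw [cast_sum S _ hd]
    refine Finset.sum_congr rfl fun i hi => ?_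
    rw [bb_cast, Rat.cast_mul_of_ne_zero (zn (dn_int hp _)) (zn (hb i hi)), Rat.cast_intCast]
  rw [h1, Rat.cast_def, div_eq_zero_iff, or_iff_left (zn (dn_sum hp _ _ hd)),
    ZMod.intCast_zmod_eq_zero_iff_dvd]

/-- the square matrix with the rows `k < N (D + 1)`, the columns `(r, i)`, `r < N`, `i ≤ D`, and the entries
`(k + i)_r B_{k+i-r}` is invertible modulo `p` -/
theorem square (p : ℕ) (hp : p.Prime) (N D : ℕ) (hbox : (N + 1) * (D + 1) ≤ p) (a : ℕ → ℕ → ℤ)
    (ha : ∃ r < N, ∃ i ≤ D, ¬ (p : ℤ) ∣ a r i) : ∃ k < N * (D + 1), ¬ (p : ℤ) ∣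
      (∑ r ∈ range N, ∑ i ∈ range (D + 1),
        (a r i : ℚ) * (((k + i).descFactorial r : ℕ) * bernoulli (k + i - r))).num := by
  classical
  have : Fact p.Prime := ⟨hp⟩
  by_contra hcon
  push Not at hcon
  obtain ⟨r₀, hr₀, i₀, hi₀, har⟩ := ha
  have hp2 := hp.two_le
  have hexp : (N + 1) * (D + 1) = N * (D + 1) + (D + 1) := by ring
  set L := LL (bb p) with hLdef
  have hL := LL_diff (bb p) (p - 2) (fun n hn => bb_rec p n (by omega))
  let A : ℕ → Polynomial (ZMod p) := fun r =>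
    ∑ i ∈ range (D + 1), Polynomial.C ((a r i : ℤ) : ZMod p) * Polynomial.X ^ i
  have hAdeg : ∀ r, (A r).natDegree ≤ D := by
    intro r
    refine Polynomial.natDegree_sum_le_of_forall_le _ _ fun i hi => ?_
    rw [mem_range] at hi
    exact (Polynomial.natDegree_C_mul_X_pow_le _ _).trans (by omega)
  have hAcoeff : ∀ r, ∀ i ≤ D, (A r).coeff i = ((a r i : ℤ) : ZMod p) := by
    intro r i hi
    simp only [A, Polynomial.finsetSum_coeff, Polynomial.coeff_C_mul, Polynomial.coeff_X_pow]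
    rw [sum_eq_single i]
    · rw [if_pos rfl, mul_one]
    · intro j _ hj
      rw [if_neg (Ne.symm hj), mul_zero]
    · intro h
      exact absurd (mem_range.2 (Nat.lt_succ_of_le hi)) h
  -- the relations
  have hrelk : ∀ k < N * (D + 1), L (opn N A (Polynomial.X ^ k)) = 0 := by
    intro k hk
    have h1 := hcon k hk
    have h2 : (∑ r ∈ range N, ∑ i ∈ range (D + 1),
        (a r i : ℚ) * (((k + i).descFactorial r : ℕ) * bernoulli (k + i - r))) =
        ∑ x ∈ range N ×ˢ range (D + 1),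
          (((a x.1 x.2 * ((k + x.2).descFactorial x.1 : ℕ) : ℤ) : ℤ) : ℚ) *
            bernoulli (k + x.2 - x.1) := by
      rw [sum_product]
      refine sum_congr rfl fun r _ => sum_congr rfl fun i _ => ?_
      push_cast
      ring
    rw [h2] at h1
    have h3 := (bb_form p (range N ×ˢ range (D + 1))
      (fun x => a x.1 x.2 * ((k + x.2).descFactorial x.1 : ℕ)) (fun x => k + x.2 - x.1)
      (fun x hx => by
        rw [mem_product, mem_range, mem_range] at hx
        omega)).2 h1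
    rw [sum_product] at h3
    rw [← h3]
    unfold opn
    rw [map_sum]
    refine sum_congr rfl fun r _ => ?_
    simp only [A]
    rw [sum_mul, Polynomial.iterate_derivative_sum, map_sum]
    refine sum_congr rfl fun i _ => ?_
    have h4 : Polynomial.C ((a r i : ℤ) : ZMod p) * Polynomial.X ^ i * Polynomial.X ^ k =
        ((a r i : ℤ) : ZMod p) • (Polynomial.X ^ (k + i) : Polynomial (ZMod p)) := by
      rw [Polynomial.smul_eq_C_mul, pow_add]
      ring
    rw [h4, Polynomial.iterate_derivative_smul, map_smul,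
      Polynomial.iterate_derivative_X_pow_eq_smul, map_smul, hLdef, LL_X_pow, smul_eq_mul,
      smul_eq_mul]
    push_cast
    ring
  have hnorm := normal (p - 2) N D (by omega) L hL (by omega) A (fun r _ => hAdeg r)
    (fun g hg => by
      change L (opn N A g) = 0
      rw [as_sum g _ hg, ← opnL_apply, map_sum, map_sum]
      refine sum_eq_zero fun k hk => ?_
      rw [mem_range] at hk
      rw [map_smul, map_smul, opnL_apply, hrelk k hk, smul_zero])
  apply har
  have h5 := hAcoeff r₀ i₀ hi₀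
  rw [hnorm r₀ hr₀, Polynomial.coeff_zero] at h5
  exact (ZMod.intCast_zmod_eq_zero_iff_dvd _ _).1 h5.symm

end Pool.Agent.Lib.MP_a3a416_nt.EV
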