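import Mathlib

/-!
# EV-Weyl: differential operators with polynomial coefficients

A family `A : ℕ → F[X]` with `A r = 0` for `r ≥ n` stands for the operator `∑ r < n, D^r ∘ A_r`
(`opn n A`). `mulD A` is the operator `A ∘ D`. `Phi A B` is `A ∘ (∑ j, B_j D^j)`.
-/

namespace Pool.Agent.Lib.MP_a3a416_nt.EV

open Polynomial Finset

variable {F : Type*} [Field F]

/-- the operator `∑ r < n, D^r ∘ A_r` -/
noncomputable def opn (n : ℕ) (A : ℕ → F[X]) (g : F[X]) : F[X] :=
  ∑ r ∈ range n, derivative^[r] (A r * g)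

/-- the family of the operator `A ∘ D` -/
noncomputable def mulD (A : ℕ → F[X]) (r : ℕ) : F[X] :=
  (if r = 0 then 0 else A (r - 1)) - derivative (A r)

/-- the family of the operator `A ∘ (∑ j < n, B_j D^j)` -/
noncomputable def Phi (n : ℕ) (A B : ℕ → F[X]) (r : ℕ) : F[X] :=
  ∑ j ∈ range n, (mulD^[j] fun r => A r * B j) r

theorem opn_le {n m : ℕ} (hnm : n ≤ m) (A : ℕ → F[X]) (hA : ∀ r, n ≤ r → A r = 0) (g : F[X]) :
    opn m A g = opn n A g := by
  unfold opn
  symm
  refine sum_subset (range_subset_range.2 hnm) fun r _ hr => ?_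
  rw [mem_range, not_lt] at hr
  rw [hA r hr, zero_mul, iterate_derivative_zero]

theorem opn_mulD (n : ℕ) (A : ℕ → F[X]) (hA : ∀ r, n ≤ r → A r = 0) (g : F[X]) :
    opn (n + 1) (mulD A) g = opn n A (derivative g) := by
  unfold opn mulD
  have h1 : ∀ r, derivative^[r] (((if r = 0 then 0 else A (r - 1)) - derivative (A r)) * g) =
      derivative^[r] ((if r = 0 then 0 else A (r - 1)) * g) -
        derivative^[r] (derivative (A r) * g) := fun r => by
    rw [sub_mul, iterate_derivative_sub]
  rw [sum_congr rfl fun r _ => h1 r, sum_sub_distrib, sum_range_succ' _ n]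
  simp only [if_true, Nat.add_sub_cancel, Nat.succ_ne_zero, if_false, zero_mul,
    Function.iterate_zero, id, add_zero]
  rw [sum_range_succ _ n, hA n le_rfl, derivative_zero, zero_mul, iterate_derivative_zero, add_zero,
    ← sum_sub_distrib]
  refine sum_congr rfl fun r _ => ?_
  rw [Function.iterate_succ_apply, ← iterate_derivative_sub]
  congr 1
  rw [derivative_mul]
  ring

theorem mulD_supp {n : ℕ} {A : ℕ → F[X]} (hA : ∀ r, n ≤ r → A r = 0) :
    ∀ r, n + 1 ≤ r → mulD A r = 0 := by
  intro r hr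
  unfold mulD
  rw [if_neg (by omega), hA (r - 1) (by omega), hA r (by omega), derivative_zero, sub_zero]

theorem mulD_iter_supp {n : ℕ} {A : ℕ → F[X]} (hA : ∀ r, n ≤ r → A r = 0) (j : ℕ) :
    ∀ r, n + j ≤ r → (mulD^[j] A) r = 0 := by
  induction j with
  | zero => exact hA
  | succ j ih =>
    intro r hr
    rw [Function.iterate_succ_apply']
    exact mulD_supp ih r (by omega)

theorem mulD_iter_zero (j : ℕ) : ∀ r, (mulD^[j] fun _ => (0 : F[X])) r = 0 := by
  induction j with
  | zero => exact fun _ => rfl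
  | succ j ih =>
    intro r
    rw [Function.iterate_succ_apply']
    unfold mulD
    change (if r = 0 then 0 else (mulD^[j] fun _ => (0 : F[X])) (r - 1)) -
      derivative ((mulD^[j] fun _ => (0 : F[X])) r) = 0
    rw [ih, ih, ite_self, derivative_zero, sub_zero]

theorem mulD_iter_top {n : ℕ} {A : ℕ → F[X]} (hA : ∀ r, n + 1 ≤ r → A r = 0) (j : ℕ) :
    (mulD^[j] A) (n + j) = A n := by
  induction j with
  | zero => rfl
  | succ j ih =>
    rw [Function.iterate_succ_apply']
    unfold mulD
    rw [if_neg (by omega), show n + (j + 1) - 1 = n + j by omega]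
    change (mulD^[j] A) (n + j) - derivative ((mulD^[j] A) (n + (j + 1))) = A n
    rw [ih, mulD_iter_supp hA j (n + (j + 1)) (by omega), derivative_zero, sub_zero]

theorem mulD_iter_degree {m : ℕ} {A : ℕ → F[X]} (hA : ∀ r, (A r).natDegree ≤ m) (j : ℕ) :
    ∀ r, ((mulD^[j] A) r).natDegree ≤ m := by
  induction j with
  | zero => exact hA
  | succ j ih =>
    intro r
    rw [Function.iterate_succ_apply']
    unfold mulD
    refine (natDegree_sub_le _ _).trans (max_le ?_ ?_)
    · split_ifs
      · rw [natDegree_zero]; exact Nat.zero_le _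
      · exact ih _
    · exact (natDegree_derivative_le _).trans ((Nat.sub_le _ _).trans (ih r))

theorem opn_mulD_iter (n : ℕ) (A : ℕ → F[X]) (hA : ∀ r, n ≤ r → A r = 0) (j : ℕ) (g : F[X]) :
    opn (n + j) (mulD^[j] A) g = opn n A (derivative^[j] g) := by
  induction j generalizing g with
  | zero => rfl
  | succ j ih =>
    rw [Function.iterate_succ_apply', Function.iterate_succ_apply, ← ih, ← Nat.add_assoc]
    exact opn_mulD (n + j) _ (mulD_iter_supp hA j) g

theorem opn_mul (n : ℕ) (A : ℕ → F[X]) (B g : F[X]) :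
    opn n (fun r => A r * B) g = opn n A (B * g) := by
  unfold opn
  exact sum_congr rfl fun r _ => by rw [mul_assoc]

/-- the operator of `Phi` -/
theorem opn_Phi (n m : ℕ) (A B : ℕ → F[X]) (hA : ∀ r, m + 1 ≤ r → A r = 0) (g : F[X]) :
    opn (m + n) (Phi n A B) g = ∑ j ∈ range n, opn (m + 1) A (B j * derivative^[j] g) := by
  have h1 : opn (m + n) (Phi n A B) g =
      ∑ j ∈ range n, opn (m + n) (mulD^[j] fun r => A r * B j) g := by
    unfold opn Phi
    rw [sum_comm]
    refine sum_congr rfl fun r _ => ?_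
    rw [sum_mul, iterate_derivative_sum]
  rw [h1]
  refine sum_congr rfl fun j hj => ?_
  rw [mem_range] at hj
  have hAB : ∀ r, m + 1 ≤ r → (fun r => A r * B j) r = 0 := fun r hr => by
    simp only
    rw [hA r hr, zero_mul]
  have h2 := mulD_iter_supp hAB j
  have h3 : opn (m + n) (mulD^[j] fun r => A r * B j) g =
      opn (m + 1 + j) (mulD^[j] fun r => A r * B j) g := opn_le (by omega) _ h2 g
  rw [h3, opn_mulD_iter _ _ hAB, opn_mul]

theorem Phi_degree (n m m' : ℕ) (A B : ℕ → F[X]) (hA : ∀ r, (A r).natDegree ≤ m)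
    (hB : ∀ j, (B j).natDegree ≤ m') (r : ℕ) : (Phi n A B r).natDegree ≤ m + m' := by
  unfold Phi
  refine natDegree_sum_le_of_forall_le _ _ fun j _ => ?_
  exact mulD_iter_degree (fun r => natDegree_mul_le.trans (add_le_add (hA r) (hB j))) j r

/-- injectivity: the leading coefficient -/
theorem Phi_ne_zero (n m : ℕ) (A B : ℕ → F[X]) (hA : ∀ r, m + 1 ≤ r → A r = 0)
    (hA0 : ∃ r, A r ≠ 0) (hB0 : ∃ j < n, B j ≠ 0) : ∃ r < m + n, Phi n A B r ≠ 0 := by
  classical
  -- the largest `R` and `J`
  have hR : ∃ R ≤ m, A R ≠ 0 ∧ ∀ r, R + 1 ≤ r → A r = 0 := by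
    obtain ⟨r, hr⟩ := hA0
    have hrm : r ≤ m := by
      by_contra hcon
      exact hr (hA r (by omega))
    refine ⟨Nat.findGreatest (fun r => A r ≠ 0) m, Nat.findGreatest_le m,
      Nat.findGreatest_spec (P := fun r => A r ≠ 0) hrm hr, fun k hk => ?_⟩
    by_cases hkm : k ≤ m
    · by_contra hne
      exact Nat.findGreatest_is_greatest (P := fun r => A r ≠ 0) (by omega) hkm hne
    · exact hA k (by omega)
  obtain ⟨R, hRm, hR0, hR1⟩ := hR
  have hJ : ∃ J < n, B J ≠ 0 ∧ ∀ j, J + 1 ≤ j → j < n → B j = 0 := by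
    obtain ⟨j, hj, hj0⟩ := hB0
    refine ⟨Nat.findGreatest (fun j => B j ≠ 0) (n - 1), ?_,
      Nat.findGreatest_spec (P := fun j => B j ≠ 0) (by omega : j ≤ n - 1) hj0, fun k hk hkn => ?_⟩
    · have := Nat.findGreatest_le (P := fun j => B j ≠ 0) (n - 1)
      omega
    · by_contra hne
      exact Nat.findGreatest_is_greatest (P := fun j => B j ≠ 0) (n := n - 1) (by omega)
        (by omega) hne
  obtain ⟨J, hJn, hJ0, hJ1⟩ := hJ
  refine ⟨R + J, by omega, ?_⟩
  have h1 : Phi n A B (R + J) = A R * B J := by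
    unfold Phi
    rw [sum_eq_single J]
    · exact mulD_iter_top (A := fun r => A r * B J) (n := R) (fun r hr => by
        rw [hR1 r hr, zero_mul]) J
    · intro j hj hjJ
      rw [mem_range] at hj
      rcases lt_or_gt_of_ne hjJ with h | h
      · exact mulD_iter_supp (A := fun r => A r * B j) (n := R + 1) (fun r hr => by
          rw [hR1 r hr, zero_mul]) j (R + J) (by omega)
      · have h0 : (fun r => A r * B j) = fun _ => (0 : F[X]) := by
          funext r
          rw [hJ1 j (by omega) hj, mul_zero]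
        rw [h0]
        exact mulD_iter_zero j (R + J)
    · intro h
      exact absurd (mem_range.2 hJn) h
  rw [h1]
  exact mul_ne_zero hR0 hJ0

end Pool.Agent.Lib.MP_a3a416_nt.EV
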